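import Mathlib
import Pool.Agent.H905R3.GapField

/-!
# Monomial endomorphisms of the plane: the topological degrees of the iterates
-/

set_option autoImplicit false

namespace Pool.Agent.Y211.LY

open MvPolynomial IntermediateField
open Pool.Agent.H905R3 Pool.Agent.H905R3.Gap

variable (K : Type*) [Field K] (a b : ℕ)

/-- the first coordinate of the pullback -/
noncomputable def uu : FunField K 2 := xx K ^ a * yy K

/-- `y` is transcendental over `K[x]` -/
theorem trans_yx : Transcendental (Algebra.adjoin K {xx K}) (yy K) := by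
  have h := ((AlgebraicIndependent.iff_transcendental_adjoin_image (1 : Fin 2)).mp (indep_xy K)).2
  have e : ![xx K, yy K] '' {1}ᶜ = {xx K} := by
    ext z
    simp only [Set.mem_image, Set.mem_compl_iff, Set.mem_singleton_iff, Fin.exists_fin_two]
    simp [eq_comm]
  rw [e] at h
  simpa using h

theorem trans_x0 : Transcendental K (xx K) := by
  have := (indep_xy K).transcendental 0
  simpa using this

theorem alg_xx : IsAlgebraic (Algebra.adjoin K {xx K}) (xx K) :=
  isAlgebraic_algebraMap (⟨xx K, Algebra.subset_adjoin rfl⟩ : Algebra.adjoin K {xx K})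

/-- a pair is independent if the first is transcendental, and the second is over the first -/
theorem indep_pair {u v : FunField K 2} (hu : Transcendental K u)
    (hv : Transcendental (Algebra.adjoin K {u}) v) : AlgebraicIndependent K ![u, v] := by
  rw [AlgebraicIndependent.iff_transcendental_adjoin_image (1 : Fin 2)]
  constructor
  · have : Unique {j : Fin 2 // j ≠ 1} := ⟨⟨⟨0, by decide⟩⟩, fun ⟨j, hj⟩ => by
      fin_cases j
      · rfl
      · exact absurd rfl hj⟩
    rw [algebraicIndependent_unique_type_iff]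
    have : ((default : {j : Fin 2 // j ≠ 1}) : Fin 2) = 0 := by
      have h := (default : {j : Fin 2 // j ≠ 1}).2
      generalize (default : {j : Fin 2 // j ≠ 1}) = j at h ⊢
      obtain ⟨j, hj⟩ := j
      fin_cases j
      · rfl
      · exact absurd rfl hj
    rw [this]
    exact hu
  · have e : ![u, v] '' {1}ᶜ = {u} := by
      ext z
      simp only [Set.mem_image, Set.mem_compl_iff, Set.mem_singleton_iff, Fin.exists_fin_two]
      simp [eq_comm]
    rw [e]
    exact hv

theorem indep_xu : AlgebraicIndependent K ![xx K, uu K a] := by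
  refine indep_pair K (trans_x0 K) ?_
  intro h
  apply trans_yx K
  have h2 : IsAlgebraic (Algebra.adjoin K {xx K}) ((xx K ^ a)⁻¹) := ((alg_xx K).pow a).inv
  have h3 := h2.mul h
  have e : (xx K ^ a)⁻¹ * uu K a = yy K := by
    have h4 : xx K ^ a ≠ 0 := pow_ne_zero _ (xx_ne K)
    rw [uu, ← mul_assoc, inv_mul_cancel₀ h4, one_mul]
  rwa [e] at h3

theorem trans_u : Transcendental K (uu K a) := by
  have := (indep_xu K a).transcendental 1
  simpa using this

/-- `x` is transcendental over `K[u]` -/
theorem trans_xu : Transcendental (Algebra.adjoin K {uu K a}) (xx K) := by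
  have h := ((AlgebraicIndependent.iff_transcendental_adjoin_image (0 : Fin 2)).mp
    (indep_xu K a)).2
  have e : ![xx K, uu K a] '' {0}ᶜ = {uu K a} := by
    ext z
    simp only [Set.mem_image, Set.mem_compl_iff, Set.mem_singleton_iff, Fin.exists_fin_two]
    simp [eq_comm]
  rw [e] at h
  simpa using h

open scoped IntermediateField.algebraAdjoinAdjoin in
/-- `x` is transcendental over `K(u)` -/
theorem trans_xu' : Transcendental K⟮uu K a⟯ (xx K) := by
  intro h
  apply trans_xu K a
  exact (IsFractionRing.isAlgebraic_iff (Algebra.adjoin K {uu K a}) K⟮uu K a⟯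
    (FunField K 2)).mpr h

variable (c d D : ℕ)

/-- the second coordinate of the pullback -/
noncomputable def vv : FunField K 2 := xx K ^ c * yy K ^ d

theorem vv_eq (hD : a * d = c + D) : vv K c d * xx K ^ D = uu K a ^ d := by
  rw [vv, uu, mul_pow, ← pow_mul, hD, pow_add]
  ring

theorem uu_ne : uu K a ≠ 0 := mul_ne_zero (pow_ne_zero _ (xx_ne K)) (yy_ne K)

theorem vv_ne : vv K c d ≠ 0 :=
  mul_ne_zero (pow_ne_zero _ (xx_ne K)) (pow_ne_zero _ (yy_ne K))

theorem indep_Φ (hD : a * d = c + D) (hD0 : 0 < D) :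
    AlgebraicIndependent K ![uu K a, vv K c d] := by
  refine indep_pair K (trans_u K a) ?_
  intro h
  apply trans_xu K a
  have hu : IsAlgebraic (Algebra.adjoin K {uu K a}) (uu K a ^ d) := by
    have : IsAlgebraic (Algebra.adjoin K {uu K a}) (uu K a) :=
      isAlgebraic_algebraMap (⟨uu K a, Algebra.subset_adjoin rfl⟩ : Algebra.adjoin K {uu K a})
    exact this.pow _
  have h2 : IsAlgebraic (Algebra.adjoin K {uu K a}) (xx K ^ D) := by
    have h3 := hu.mul h.inv
    have e2 : uu K a ^ d * (vv K c d)⁻¹ = xx K ^ D := by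
      rw [← vv_eq K a c d D hD]
      have h5 := vv_ne K c d
      field_simp
    rwa [e2] at h3
  exact h2.of_pow hD0

/-- the pullback on the function field -/
noncomputable def Φ (hD : a * d = c + D) (hD0 : 0 < D) : FunField K 2 →ₐ[K] FunField K 2 :=
  IsFractionRing.liftAlgHom (algebraicIndependent_iff_injective_aeval.1 (indep_Φ K a c d D hD hD0))

theorem Φ_alg (hD : a * d = c + D) (hD0 : 0 < D) (p : MvPolynomial (Fin 2) K) :
    Φ K a c d D hD hD0 (algebraMap (MvPolynomial (Fin 2) K) _ p) =
      aeval ![uu K a, vv K c d] p := by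
  rw [Φ, IsFractionRing.liftAlgHom_apply]
  exact IsFractionRing.lift_algebraMap _ _

theorem Φ_x (hD : a * d = c + D) (hD0 : 0 < D) : Φ K a c d D hD hD0 (xx K) = uu K a := by
  rw [xx, Φ_alg, aeval_X]
  rfl

theorem Φ_y (hD : a * d = c + D) (hD0 : 0 < D) : Φ K a c d D hD hD0 (yy K) = vv K c d := by
  have : Φ K a c d D hD hD0 (yy K) =
    Φ K a c d D hD hD0 (algebraMap (MvPolynomial (Fin 2) K) _ (X 1)) := rfl
  rw [this, Φ_alg, aeval_X]
  rfl

/-- the coordinates of the iterates -/
noncomputable def XY : ℕ → FunField K 2 × FunField K 2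
  | 0 => (xx K, yy K)
  | (n + 1) => ((XY n).1 ^ a * (XY n).2, (XY n).1 ^ c * (XY n).2 ^ d)

theorem Φ_XY (hD : a * d = c + D) (hD0 : 0 < D) (n : ℕ) :
    Φ K a c d D hD hD0 (XY K a c d n).1 = (XY K a c d (n + 1)).1 ∧
    Φ K a c d D hD hD0 (XY K a c d n).2 = (XY K a c d (n + 1)).2 := by
  induction n with
  | zero =>
    constructor
    · show Φ K a c d D hD hD0 (xx K) = xx K ^ a * yy K
      rw [Φ_x]
      rfl
    · show Φ K a c d D hD hD0 (yy K) = xx K ^ c * yy K ^ d
      rw [Φ_y]
      rfl
  | succ n ih =>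
    constructor
    · show Φ K a c d D hD hD0 ((XY K a c d n).1 ^ a * (XY K a c d n).2) = _
      rw [map_mul, map_pow, ih.1, ih.2]
      rfl
    · show Φ K a c d D hD hD0 ((XY K a c d n).1 ^ c * (XY K a c d n).2 ^ d) = _
      rw [map_mul, map_pow, map_pow, ih.1, ih.2]
      rfl

/-- the fields of definition of the iterates -/
noncomputable def Fn (n : ℕ) : IntermediateField K (FunField K 2) :=
  adjoin K {(XY K a c d n).1, (XY K a c d n).2}

theorem adjoin_xy : adjoin K ({xx K, yy K} : Set (FunField K 2)) = ⊤ := by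
  rw [eq_top_iff]
  intro z _
  obtain ⟨p, q, hq, rfl⟩ := IsFractionRing.div_surjective (A := MvPolynomial (Fin 2) K) z
  have key : ∀ p : MvPolynomial (Fin 2) K, algebraMap _ (FunField K 2) p ∈
      adjoin K ({xx K, yy K} : Set (FunField K 2)) := by
    intro p
    induction p using MvPolynomial.induction_on with
    | C a =>
      rw [← MvPolynomial.algebraMap_eq, ← IsScalarTower.algebraMap_apply]
      exact IntermediateField.algebraMap_mem _ _
    | add p q hp hq => rw [map_add]; exact add_mem hp hq
    | mul_X p i hp =>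
      rw [map_mul]
      refine mul_mem hp ?_
      fin_cases i
      · exact IntermediateField.subset_adjoin K _ (by simp [xx])
      · exact IntermediateField.subset_adjoin K _ (by simp [yy])
  exact div_mem (key p) (key q)

theorem Fn_zero : Fn K a c d 0 = ⊤ := adjoin_xy K

theorem Fn_map (hD : a * d = c + D) (hD0 : 0 < D) (n : ℕ) :
    (Fn K a c d n).map (Φ K a c d D hD hD0) = Fn K a c d (n + 1) := by
  rw [Fn, IntermediateField.adjoin_map, Set.image_pair, (Φ_XY K a c d D hD hD0 n).1,
    (Φ_XY K a c d D hD hD0 n).2]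
  rfl

theorem Fn_one (hD : a * d = c + D) : Fn K a c d 1 = K⟮uu K a, xx K ^ D⟯ := by
  have e1 : (XY K a c d 1).1 = uu K a := rfl
  have e2 : (XY K a c d 1).2 = vv K c d := rfl
  have h5 := vv_ne K c d
  have h6 : xx K ^ D ≠ 0 := pow_ne_zero _ (xx_ne K)
  rw [Fn, e1, e2]
  apply le_antisymm
  · rw [IntermediateField.adjoin_le_iff]
    have h1 : uu K a ∈ K⟮uu K a, xx K ^ D⟯ := IntermediateField.subset_adjoin K _ (by simp)
    have h2 : xx K ^ D ∈ K⟮uu K a, xx K ^ D⟯ := IntermediateField.subset_adjoin K _ (by simp)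
    rintro z (rfl | rfl)
    · exact h1
    · have h3 := div_mem (pow_mem h1 d) h2
      have e : uu K a ^ d / xx K ^ D = vv K c d := by
        rw [← vv_eq K a c d D hD]
        field_simp
      rwa [e] at h3
  · rw [IntermediateField.adjoin_le_iff]
    have h1 : uu K a ∈ K⟮uu K a, vv K c d⟯ := IntermediateField.subset_adjoin K _ (by simp)
    have h2 : vv K c d ∈ K⟮uu K a, vv K c d⟯ := IntermediateField.subset_adjoin K _ (by simp)
    rintro z (rfl | rfl)
    · exact h1
    · have h3 := div_mem (pow_mem h1 d) h2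
      have e : uu K a ^ d / vv K c d = xx K ^ D := by
        rw [← vv_eq K a c d D hD]
        field_simp
      rwa [e] at h3

theorem adjoin_ux : K⟮uu K a, xx K⟯ = ⊤ := by
  rw [← adjoin_xy K]
  apply le_antisymm
  · rw [adjoin_xy]
    exact le_top
  · rw [IntermediateField.adjoin_le_iff]
    have h1 : uu K a ∈ K⟮uu K a, xx K⟯ := IntermediateField.subset_adjoin K _ (by simp)
    have h2 : xx K ∈ K⟮uu K a, xx K⟯ := IntermediateField.subset_adjoin K _ (by simp)
    rintro z (rfl | rfl)
    · exact h2
    · have h3 := div_mem h1 (pow_mem h2 a)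
      have h4 : xx K ^ a ≠ 0 := pow_ne_zero _ (xx_ne K)
      have e : uu K a / xx K ^ a = yy K := by
        rw [uu]
        field_simp
      rwa [e] at h3

theorem rel_one (hD : a * d = c + D) : relfinrank (Fn K a c d 1) ⊤ = D := by
  have h := relfinrank_pow (M := K⟮uu K a⟯) (xx K) (trans_xu' K a) D
  have e1 : (K⟮uu K a⟯⟮xx K ^ D⟯).restrictScalars K = Fn K a c d 1 := by
    rw [IntermediateField.adjoin_simple_adjoin_simple, Fn_one K a c d D hD]
  have e2 : (K⟮uu K a⟯⟮xx K⟯).restrictScalars K = ⊤ := by
    rw [IntermediateField.adjoin_simple_adjoin_simple, adjoin_ux]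
  rw [← e1, ← e2]
  exact h

theorem rel_n (hD : a * d = c + D) (hD0 : 0 < D) (n : ℕ) :
    relfinrank (Fn K a c d n) ⊤ = D ^ n := by
  induction n with
  | zero => rw [Fn_zero, relfinrank_self, pow_zero]
  | succ n ih =>
    have e : (⊤ : IntermediateField K (FunField K 2)).map (Φ K a c d D hD hD0) =
        Fn K a c d 1 := by
      rw [← Fn_zero K a c d, Fn_map]
    have h1 : relfinrank (Fn K a c d (n + 1)) (Fn K a c d 1) = D ^ n := by
      rw [← Fn_map K a c d D hD hD0 n, ← e, relfinrank_map_map, ih]
    have h2 : Fn K a c d (n + 1) ≤ Fn K a c d 1 := by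
      rw [← Fn_map K a c d D hD hD0 n, ← e]
      exact IntermediateField.map_mono _ le_top
    rw [← relfinrank_mul_relfinrank h2 le_top, h1, rel_one K a c d D hD, pow_succ]

end Pool.Agent.Y211.LY
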