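import Mathlib
import Pool.Agent.Y211.LY.Field
import Pool.Agent.H905R3.GapMain

/-!
# Monomial endomorphisms of the plane: iterates and dynamical degrees
-/

set_option autoImplicit false

namespace Pool.Agent.Y211.LY

open MvPolynomial IntermediateField Filter Topology
open Pool.Agent.H905R3 Pool.Agent.H905R3.Gap

/-- the exponent `a` -/
def aa (c e j : ℕ) : ℕ := c + e + 1 + j
/-- the determinant -/
def DD (c e j : ℕ) : ℕ := c * e + (e + 1) * (e + 1 + j)

theorem aa_mul (c e j : ℕ) : aa c e j * (e + 1) = c + DD c e j := by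
  unfold aa DD
  ring

theorem DD_pos (c e j : ℕ) : 0 < DD c e j := by
  unfold DD
  positivity

variable (K : Type*) [Field K] (c e j : ℕ)

/-- exponents of the iterates -/
def ex : ℕ → ℕ × ℕ × ℕ × ℕ × ℕ
  | 0 => (1, 0, 0, 1, 0)
  | (n + 1) => (aa c e j * (ex n).1 + (ex n).2.2.1, aa c e j * (ex n).2.1 + (ex n).2.2.2.1,
      c * (ex n).1 + (e + 1) * (ex n).2.2.1, c * (ex n).2.1 + (e + 1) * (ex n).2.2.2.1,
      (j + 1) * ((ex n).2.2.1 + (ex n).2.2.2.1) + (e + 1 + j) * (ex n).2.2.2.2)

/-- exponent -/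
def p (n : ℕ) : ℕ := (ex c e j n).1
/-- exponent -/
def q (n : ℕ) : ℕ := (ex c e j n).2.1
/-- exponent -/
def r (n : ℕ) : ℕ := (ex c e j n).2.2.1
/-- exponent -/
def s (n : ℕ) : ℕ := (ex c e j n).2.2.2.1
/-- exponent -/
def z (n : ℕ) : ℕ := (ex c e j n).2.2.2.2

theorem p_zero : p c e j 0 = 1 := rfl
theorem q_zero : q c e j 0 = 0 := rfl
theorem r_zero : r c e j 0 = 0 := rfl
theorem s_zero : s c e j 0 = 1 := rfl
theorem z_zero : z c e j 0 = 0 := rfl
theorem p_succ (n : ℕ) : p c e j (n + 1) = aa c e j * p c e j n + r c e j n := rfl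
theorem q_succ (n : ℕ) : q c e j (n + 1) = aa c e j * q c e j n + s c e j n := rfl
theorem r_succ (n : ℕ) : r c e j (n + 1) = c * p c e j n + (e + 1) * r c e j n := rfl
theorem s_succ (n : ℕ) : s c e j (n + 1) = c * q c e j n + (e + 1) * s c e j n := rfl
theorem z_succ (n : ℕ) : z c e j (n + 1) =
    (j + 1) * (r c e j n + s c e j n) + (e + 1 + j) * z c e j n := rfl

theorem inv (n : ℕ) : p c e j n + q c e j n = z c e j n + r c e j n + s c e j n := by
  induction n with
  | zero => rfl
  | succ n ih =>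
    have h1 : (c + e + 1 + j) * (p c e j n + q c e j n) =
        (c + e + 1 + j) * (z c e j n + r c e j n + s c e j n) := by rw [ih]
    have h2 : c * (p c e j n + q c e j n) =
        c * (z c e j n + r c e j n + s c e j n) := by rw [ih]
    rw [p_succ, q_succ, r_succ, s_succ, z_succ]
    unfold aa
    nlinarith [h1, h2]

/-- the monomial tuple -/
noncomputable def mono (n : ℕ) : Fin 3 → MvPolynomial (Fin 3) K :=
  ![X 0 ^ (p c e j n + q c e j n), X 1 ^ p c e j n * X 2 ^ q c e j n,
    X 0 ^ z c e j n * X 1 ^ r c e j n * X 2 ^ s c e j n]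

theorem mono_hom (n : ℕ) (i : Fin 3) :
    (mono K c e j n i).IsHomogeneous (p c e j n + q c e j n) := by
  fin_cases i
  · exact hX K 0 _
  · exact (hX K 1 _).mul (hX K 2 _)
  · have := ((hX K 0 (z c e j n)).mul (hX K 1 (r c e j n))).mul (hX K 2 (s c e j n))
    rwa [← inv] at this

theorem reduced_aux (P : MvPolynomial (Fin 3) K) (k l m : ℕ)
    (h0 : P ∣ X 0 ^ k) (h1 : P ∣ X 1 ^ l * X 2 ^ m) : IsUnit P := by
  have hprime : Prime (X 0 : MvPolynomial (Fin 3) K) := MvPolynomial.X_prime
  obtain ⟨i, hi, hass⟩ := (dvd_prime_pow hprime k).1 h0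
  rcases Nat.eq_zero_or_pos i with rfl | hpos
  · rw [pow_zero] at hass
    exact (associated_one_iff_isUnit).1 hass
  · exfalso
    have hX : (X 0 : MvPolynomial (Fin 3) K) ∣ X 1 ^ l * X 2 ^ m :=
      ((dvd_pow_self _ hpos.ne').trans hass.symm.dvd).trans h1
    obtain ⟨t, ht⟩ := hX
    have := congrArg (aeval (![0, 1, 1] : Fin 3 → K)) ht
    simp at this

/-- the iterates in reduced form -/
noncomputable def g (n : ℕ) : RatMap K 2 where
  poly := mono K c e j n
  degree := p c e j n + q c e j n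
  homogeneous := mono_hom K c e j n
  reduced := fun P hp => reduced_aux K P _ _ _ (hp 0) (hp 1)

/-- The monomial endomorphism `(x, y) ↦ (x ^ a y, x ^ c y ^ (e + 1))` of the plane. -/
noncomputable def f : RatMap K 2 where
  poly := ![X 0 ^ (aa c e j + 1), X 1 ^ aa c e j * X 2, X 0 ^ (j + 1) * X 1 ^ c * X 2 ^ (e + 1)]
  degree := aa c e j + 1
  homogeneous := fun i => by
    fin_cases i
    · exact hX K 0 _
    · have := (hX K 1 (aa c e j)).mul (hX K 2 1)
      rwa [pow_one] at this
    · have := ((hX K 0 (j + 1)).mul (hX K 1 c)).mul (hX K 2 (e + 1))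
      rwa [show j + 1 + c + (e + 1) = aa c e j + 1 by unfold aa; ring] at this
  reduced := fun P hp => reduced_aux K P (aa c e j + 1) (aa c e j) 1 (hp 0) (by
    have := hp 1
    rw [pow_one]
    exact this)

theorem f0 : (f K c e j).poly 0 = X 0 ^ (aa c e j + 1) := rfl
theorem f1 : (f K c e j).poly 1 = X 1 ^ aa c e j * X 2 := rfl
theorem f2 : (f K c e j).poly 2 = X 0 ^ (j + 1) * X 1 ^ c * X 2 ^ (e + 1) := rfl
theorem m0 (n : ℕ) : mono K c e j n 0 = X 0 ^ (p c e j n + q c e j n) := rfl
theorem m1 (n : ℕ) : mono K c e j n 1 = X 1 ^ p c e j n * X 2 ^ q c e j n := rfl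
theorem m2 (n : ℕ) : mono K c e j n 2 =
    X 0 ^ z c e j n * X 1 ^ r c e j n * X 2 ^ s c e j n := rfl

/-- the exponent of the common factor -/
def kk : ℕ → ℕ
  | 0 => 0
  | (n + 1) => (aa c e j + 1) * kk n + z c e j n

theorem subst_eq (n : ℕ) (i : Fin 3) :
    (f K c e j).subst n i = X 0 ^ kk c e j n * mono K c e j n i := by
  induction n generalizing i with
  | zero =>
    fin_cases i <;> simp [RatMap.subst, kk, mono, p_zero, q_zero, r_zero, s_zero, z_zero]
  | succ n ih =>
    rw [RatMap.subst]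
    have ih0 := ih 0
    have ih1 := ih 1
    have ih2 := ih 2
    rw [m0] at ih0
    rw [m1] at ih1
    rw [m2] at ih2
    have hinv := inv c e j n
    fin_cases i
    · change bind₁ ((f K c e j).subst n) ((f K c e j).poly 0) = _ * mono K c e j (n + 1) 0
      rw [f0, m0, map_pow, bind₁_X_right, ih0, ← pow_add, ← pow_mul, ← pow_add]
      congr 1
      simp only [kk, p_succ, q_succ]
      nlinarith [hinv]
    · change bind₁ ((f K c e j).subst n) ((f K c e j).poly 1) = _ * mono K c e j (n + 1) 1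
      rw [f1, m1, map_mul, map_pow, bind₁_X_right, bind₁_X_right, ih1, ih2]
      simp only [kk, p_succ, q_succ]
      ring
    · change bind₁ ((f K c e j).subst n) ((f K c e j).poly 2) = _ * mono K c e j (n + 1) 2
      rw [f2, m2, map_mul, map_mul, map_pow, map_pow, map_pow, bind₁_X_right, bind₁_X_right,
        bind₁_X_right, ih0, ih1, ih2, hinv]
      simp only [kk, r_succ, s_succ, z_succ, aa]
      ring

theorem isIterate (n : ℕ) : (f K c e j).IsIterate n (g K c e j n) :=
  ⟨X 0 ^ kk c e j n, pow_ne_zero _ (X_ne_zero _), fun i => subst_eq K c e j n i⟩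

theorem alg3 {L : Type*} [Field L] {A B X T : L} (hA : A ≠ 0) (hX : X ≠ 0) (hB : B ≠ 0)
    (hT : T ≠ 0) : A * X * (B / (X * (B * A / T))) = T := by
  field_simp

/-- the map is dominant -/
theorem dominant : (f K c e j).Dominant := by
  unfold RatMap.Dominant
  rw [algebraicIndependent_iff]
  intro P hP
  let L := AlgebraicClosure (FractionRing (MvPolynomial (Fin 3) K))
  let T : Fin 3 → L := fun i => algebraMap (MvPolynomial (Fin 3) K) L (X i)
  have hinj : Function.Injective (algebraMap (MvPolynomial (Fin 3) K) L) := by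
    have h1 : Function.Injective (algebraMap (MvPolynomial (Fin 3) K)
      (FractionRing (MvPolynomial (Fin 3) K))) := IsFractionRing.injective _ _
    have h2 : Function.Injective (algebraMap
      (FractionRing (MvPolynomial (Fin 3) K)) L) := RingHom.injective _
    rw [IsScalarTower.algebraMap_eq (MvPolynomial (Fin 3) K)
      (FractionRing (MvPolynomial (Fin 3) K)) L]
    exact h2.comp h1
  have hT : ∀ i, T i ≠ 0 := by
    intro i h
    have hX : (X i : MvPolynomial (Fin 3) K) ≠ 0 := X_ne_zero i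
    exact hX (hinj (by rw [map_zero]; exact h))
  obtain ⟨x0, hx0⟩ := IsAlgClosed.exists_pow_nat_eq (T 0) (n := aa c e j + 1) (by omega)
  have x0ne : x0 ≠ 0 := by
    rintro rfl
    rw [zero_pow (by omega)] at hx0
    exact hT 0 hx0.symm
  obtain ⟨x1, hx1⟩ := IsAlgClosed.exists_pow_nat_eq (T 1 ^ (e + 1) * x0 ^ (j + 1) / T 2)
    (n := DD c e j) (DD_pos c e j)
  have hD0 : DD c e j ≠ 0 := (DD_pos c e j).ne'
  have hT1 := hT 1
  have hT2 := hT 2
  have x1ne : x1 ≠ 0 := by
    rintro rfl
    rw [zero_pow hD0] at hx1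
    have : T 1 ^ (e + 1) * x0 ^ (j + 1) / T 2 ≠ 0 :=
      div_ne_zero (mul_ne_zero (pow_ne_zero _ hT1) (pow_ne_zero _ x0ne)) hT2
    exact this hx1.symm
  let pt : Fin 3 → L := ![x0, x1, T 1 / x1 ^ aa c e j]
  have hpt : ∀ i, aeval pt ((f K c e j).poly i) = T i := by
    intro i
    fin_cases i
    · change aeval pt ((f K c e j).poly 0) = T 0
      rw [f0, map_pow, aeval_X]
      exact hx0
    · change aeval pt ((f K c e j).poly 1) = T 1
      rw [f1, map_mul, map_pow, aeval_X, aeval_X]
      change x1 ^ aa c e j * (T 1 / x1 ^ aa c e j) = T 1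
      rw [← mul_div_assoc, mul_div_cancel_left₀ _ (pow_ne_zero _ x1ne)]
    · change aeval pt ((f K c e j).poly 2) = T 2
      rw [f2, map_mul, map_mul, map_pow, map_pow, map_pow, aeval_X, aeval_X, aeval_X]
      change x0 ^ (j + 1) * x1 ^ c * (T 1 / x1 ^ aa c e j) ^ (e + 1) = T 2
      rw [div_pow, ← pow_mul, aa_mul, pow_add x1 c (DD c e j), hx1]
      exact alg3 (pow_ne_zero _ x0ne) (pow_ne_zero _ x1ne) (pow_ne_zero _ hT1) hT2
  have h1 : aeval pt (aeval (f K c e j).poly P) = algebraMap (MvPolynomial (Fin 3) K) L P := by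
    have hcomp : ((aeval pt).comp (aeval (f K c e j).poly) : MvPolynomial (Fin 3) K →ₐ[K] L) =
        IsScalarTower.toAlgHom K (MvPolynomial (Fin 3) K) L := by
      apply MvPolynomial.algHom_ext
      intro i
      simp only [AlgHom.comp_apply, aeval_X]
      rw [hpt i]
      rfl
    exact DFunLike.congr_fun hcomp P
  apply hinj
  rw [← h1]
  have : aeval (f K c e j).poly P = 0 := hP
  rw [this, map_zero, map_zero]

/-! ### the topological degree of the iterates -/

theorem XY_eq (n : ℕ) :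
    (XY K (aa c e j) c (e + 1) n).1 = xx K ^ p c e j n * yy K ^ q c e j n ∧
    (XY K (aa c e j) c (e + 1) n).2 = xx K ^ r c e j n * yy K ^ s c e j n := by
  induction n with
  | zero => constructor <;> simp [XY, p_zero, q_zero, r_zero, s_zero]
  | succ n ih =>
    obtain ⟨h1, h2⟩ := ih
    constructor
    · show (XY K (aa c e j) c (e + 1) n).1 ^ (aa c e j) * (XY K (aa c e j) c (e + 1) n).2 = _
      rw [h1, h2, p_succ, q_succ]
      ring
    · show (XY K (aa c e j) c (e + 1) n).1 ^ c * (XY K (aa c e j) c (e + 1) n).2 ^ (e + 1) = _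
      rw [h1, h2, r_succ, s_succ]
      ring

theorem coord0 (n : ℕ) : (g K c e j n).coord 0 = 1 := by
  have : (g K c e j n).poly 0 = X 0 ^ (p c e j n + q c e j n) := rfl
  rw [RatMap.coord, this, map_pow, aeval_X]
  simp only [Fin.cons_zero, one_pow, map_one]

theorem coord1 (n : ℕ) : (g K c e j n).coord 1 = (XY K (aa c e j) c (e + 1) n).1 := by
  have : (g K c e j n).poly 1 = X 1 ^ p c e j n * X 2 ^ q c e j n := rfl
  rw [RatMap.coord, this, (XY_eq K c e j n).1]
  simp only [map_mul, map_pow, aeval_X]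
  rfl

theorem coord2 (n : ℕ) : (g K c e j n).coord 2 = (XY K (aa c e j) c (e + 1) n).2 := by
  have : (g K c e j n).poly 2 = X 0 ^ z c e j n * X 1 ^ r c e j n * X 2 ^ s c e j n := rfl
  rw [RatMap.coord, this, (XY_eq K c e j n).2]
  simp only [map_mul, map_pow, aeval_X, Fin.cons_zero, one_pow, one_mul]
  rfl

theorem pullbackField_eq (n : ℕ) :
    (g K c e j n).pullbackField = Fn K (aa c e j) c (e + 1) n := by
  have h1 : (XY K (aa c e j) c (e + 1) n).1 ∈ Fn K (aa c e j) c (e + 1) n :=
    subset_adjoin K _ (by simp)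
  have h2 : (XY K (aa c e j) c (e + 1) n).2 ∈ Fn K (aa c e j) c (e + 1) n :=
    subset_adjoin K _ (by simp)
  have hr : ∀ i, (g K c e j n).coord i ∈ Fn K (aa c e j) c (e + 1) n := by
    intro i
    fin_cases i
    · change (g K c e j n).coord 0 ∈ _
      rw [coord0]
      exact one_mem _
    · change (g K c e j n).coord 1 ∈ _
      rw [coord1]
      exact h1
    · change (g K c e j n).coord 2 ∈ _
      rw [coord2]
      exact h2
  apply le_antisymm
  · rw [RatMap.pullbackField, adjoin_le_iff]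
    rintro w ⟨i, k, rfl⟩
    exact div_mem (hr i) (hr k)
  · rw [Fn, adjoin_le_iff]
    rintro w (rfl | rfl)
    · exact subset_adjoin K _ ⟨1, 0, by rw [coord0, coord1, div_one]⟩
    · exact subset_adjoin K _ ⟨2, 0, by rw [coord0, coord2, div_one]⟩

theorem topDegree_eq (n : ℕ) : (g K c e j n).topDegree = DD c e j ^ n := by
  rw [RatMap.topDegree, pullbackField_eq, ← relfinrank_top_right,
    rel_n K (aa c e j) c (e + 1) (DD c e j) (aa_mul c e j) (DD_pos c e j)]

end Pool.Agent.Y211.LY
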