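import Mathlib
import Pool.Agent.Y211.LY.Map

/-!
# Monomial endomorphisms of the plane: dynamical degrees and density of the exponents
-/

set_option autoImplicit false

namespace Pool.Agent.Y211.LY

open MvPolynomial IntermediateField Filter Topology
open Pool.Agent.H905R3 Pool.Agent.H905R3.Gap

variable (c e j : ℕ)

/-- the square root of the discriminant -/
noncomputable def sq : ℝ := Real.sqrt (((aa c e j : ℝ) - (e + 1)) ^ 2 + 4 * c)
/-- the larger eigenvalue -/
noncomputable def al : ℝ := ((aa c e j + (e + 1) : ℝ) + sq c e j) / 2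
/-- the smaller eigenvalue -/
noncomputable def be : ℝ := ((aa c e j + (e + 1) : ℝ) - sq c e j) / 2

theorem sq_sq : sq c e j ^ 2 = ((aa c e j : ℝ) - (e + 1)) ^ 2 + 4 * c :=
  Real.sq_sqrt (by positivity)

theorem al_add : al c e j + be c e j = aa c e j + (e + 1) := by
  unfold al be
  ring

theorem aa_cast : (aa c e j : ℝ) = c + e + 1 + j := by
  unfold aa
  push_cast
  ring

theorem DD_cast : (aa c e j : ℝ) * (e + 1) = c + DD c e j := by
  have := aa_mul c e j
  exact_mod_cast this

theorem al_mul : al c e j * be c e j = DD c e j := by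
  have h1 := sq_sq c e j
  have h2 := DD_cast c e j
  unfold al be
  linear_combination (-1 / 4) * h1 + h2

variable (hc : 0 < c)
include hc

theorem sq_gt : (aa c e j : ℝ) - (e + 1) < sq c e j := by
  apply Real.lt_sqrt_of_sq_lt
  have : (0 : ℝ) < c := by exact_mod_cast hc
  linarith

theorem al_gt : (aa c e j : ℝ) < al c e j := by
  have := sq_gt c e j hc
  unfold al
  linarith

theorem be_lt : be c e j < e + 1 := by
  have := sq_gt c e j hc
  unfold be
  linarith

theorem aa_gt : (e : ℝ) + 1 < aa c e j := by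
  rw [aa_cast]
  have : (0 : ℝ) < c := by exact_mod_cast hc
  have : (0 : ℝ) ≤ j := Nat.cast_nonneg j
  linarith

theorem al_pos : 0 < al c e j := by
  have h1 := al_gt c e j hc
  have h2 : (0 : ℝ) ≤ aa c e j := Nat.cast_nonneg _
  linarith

theorem be_pos : 0 < be c e j := by
  have h1 := al_mul c e j
  have h2 := al_pos c e j hc
  have h3 : (0 : ℝ) < DD c e j := by exact_mod_cast DD_pos c e j
  by_contra h
  push Not at h
  have : al c e j * be c e j ≤ 0 := mul_nonpos_of_nonneg_of_nonpos h2.le h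
  linarith

omit hc in
/-- the equation of the smaller eigenvalue -/
theorem be_eq : ((e : ℝ) + 1 - be c e j) * (aa c e j - be c e j) = c := by
  have h1 := al_mul c e j
  have h2 := al_add c e j
  have h3 := DD_cast c e j
  have h4 : al c e j = aa c e j + (e + 1) - be c e j := by linarith
  rw [h4] at h1
  linear_combination h3 - h1

omit hc in
theorem al_eq : (al c e j - (e + 1)) * (al c e j - aa c e j) = c := by
  have h1 := al_mul c e j
  have h2 := al_add c e j
  have h3 := DD_cast c e j
  have h4 : be c e j = aa c e j + (e + 1) - al c e j := by linarith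
  rw [h4] at h1
  linear_combination h3 - h1

theorem be_lower : (c : ℝ) < ((e : ℝ) + 1 - be c e j) * aa c e j := by
  have h1 := be_eq c e j
  have h2 := be_pos c e j hc
  have h3 := be_lt c e j hc
  nlinarith

theorem be_upper : ((e : ℝ) + 1 - be c e j) * (aa c e j - (e + 1)) < c := by
  have h1 := be_eq c e j
  have h3 := be_lt c e j hc
  nlinarith

/-- the left eigenvector -/
theorem left_eig (n : ℕ) : (al c e j - (e + 1)) * (p c e j n + q c e j n : ℝ) +
    (r c e j n + s c e j n : ℝ) = al c e j ^ n * (al c e j - (e + 1) + 1) := by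
  induction n with
  | zero => simp [p_zero, q_zero, r_zero, s_zero]
  | succ n ih =>
    rw [p_succ, q_succ, r_succ, s_succ, pow_succ]
    push_cast
    have h := al_eq c e j
    linear_combination al c e j * ih - (p c e j n + q c e j n : ℝ) * h

theorem deg_lower (n : ℕ) : al c e j ^ n ≤ (p c e j n + q c e j n : ℝ) := by
  have h := left_eig c e j hc n
  have h1 := al_gt c e j hc
  have h2 := aa_gt c e j hc
  have hinv : (p c e j n + q c e j n : ℝ) = z c e j n + r c e j n + s c e j n := by
    exact_mod_cast inv c e j n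
  have hz : (0 : ℝ) ≤ z c e j n := Nat.cast_nonneg _
  have h3 : (r c e j n + s c e j n : ℝ) ≤ p c e j n + q c e j n := by linarith
  have h4 : 0 < al c e j - (e + 1) + 1 := by linarith
  have h5 : al c e j ^ n * (al c e j - (e + 1) + 1) ≤
      (p c e j n + q c e j n : ℝ) * (al c e j - (e + 1) + 1) := by
    rw [← h]
    linarith
  exact le_of_mul_le_mul_right h5 h4

theorem deg_upper (n : ℕ) : (p c e j n + q c e j n : ℝ) ≤
    ((al c e j - (e + 1) + 1) / (al c e j - (e + 1))) * al c e j ^ n := by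
  have h := left_eig c e j hc n
  have h1 := al_gt c e j hc
  have h2 := aa_gt c e j hc
  have h4 : 0 < al c e j - (e + 1) := by linarith
  have h5 : (0 : ℝ) ≤ r c e j n + s c e j n := by positivity
  rw [div_mul_eq_mul_div, le_div_iff₀ h4]
  linarith

variable (K : Type*) [Field K]

omit hc in
theorem dyn0 : (f K c e j).IsDynamicalDegree 0 1 := by
  refine ⟨g K c e j, isIterate K c e j, ?_⟩
  simp only [RatMap.deg, Matrix.cons_val_zero, Nat.cast_one, Real.one_rpow]
  exact tendsto_const_nhds

theorem dyn1 : (f K c e j).IsDynamicalDegree 1 (al c e j) := by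
  refine ⟨g K c e j, isIterate K c e j, ?_⟩
  have h1 := al_gt c e j hc
  have h2 := aa_gt c e j hc
  have h4 : 0 < al c e j - (e + 1) := by linarith
  have e1 : ∀ n, (((g K c e j n).deg 1 : ℕ) : ℝ) = (p c e j n + q c e j n : ℝ) := by
    intro n
    have : (g K c e j n).deg 1 = p c e j n + q c e j n := rfl
    rw [this]
    push_cast
    rfl
  simp only [e1]
  exact tendsto_root (fun n => (p c e j n + q c e j n : ℝ)) (al c e j)
    ((al c e j - (e + 1) + 1) / (al c e j - (e + 1))) (al_pos c e j hc)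
    (div_pos (by linarith) h4) (deg_lower c e j hc) (deg_upper c e j hc)

omit hc in
theorem dyn2 : (f K c e j).IsDynamicalDegree 2 (DD c e j) := by
  refine ⟨g K c e j, isIterate K c e j, ?_⟩
  have e1 : ∀ n, (((g K c e j n).deg 2 : ℕ) : ℝ) = (DD c e j : ℝ) ^ n := by
    intro n
    have : (g K c e j n).deg 2 = (g K c e j n).topDegree := rfl
    rw [this, topDegree_eq]
    push_cast
    rfl
  simp only [e1]
  have h3 : (0 : ℝ) < DD c e j := by exact_mod_cast DD_pos c e j
  exact tendsto_root (fun n => (DD c e j : ℝ) ^ n) (DD c e j) 1 h3 one_pos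
    (fun n => le_rfl) (fun n => by rw [one_mul])

/-- the dynamical degrees of `f` -/
theorem dyn (i : Fin 3) : (f K c e j).IsDynamicalDegree i (![1, al c e j, DD c e j] i) := by
  fin_cases i
  · exact dyn0 c e j K
  · exact dyn1 c e j hc K
  · exact dyn2 c e j K

omit K [Field K] in
theorem quot : (DD c e j : ℝ) / al c e j = be c e j := by
  have ha := al_pos c e j hc
  rw [div_eq_iff ha.ne', mul_comm, al_mul]

omit hc in
/-- The smaller eigenvalues are dense. -/
theorem be_dense (R s t : ℝ) (hs : 0 ≤ s) (hst : s < t) :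
    ∃ c e j : ℕ, 0 < c ∧ R < al c e j ∧ s < be c e j ∧ be c e j < t := by
  have ht : 0 < t := lt_of_le_of_lt hs hst
  obtain ⟨e, he1, he2⟩ : ∃ e : ℕ, (e : ℝ) < t ∧ t ≤ e + 1 := by
    have h1 : 0 < ⌈t⌉₊ := Nat.ceil_pos.2 ht
    refine ⟨⌈t⌉₊ - 1, ?_, ?_⟩
    · have h2 := Nat.lt_ceil.1 (show ⌈t⌉₊ - 1 < ⌈t⌉₊ by omega)
      exact h2
    · have h2 := Nat.le_ceil t
      have h3 : ((⌈t⌉₊ - 1 : ℕ) : ℝ) + 1 = ⌈t⌉₊ := by
        have : ⌈t⌉₊ - 1 + 1 = ⌈t⌉₊ := by omega
        exact_mod_cast this
      linarith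
  -- the interval of the quotients
  have hlo : max s e < t := max_lt hst he1
  obtain ⟨w, hw1, hw2⟩ := exists_rat_btwn (show (e : ℝ) + 1 - t < e + 1 - max s e by linarith)
  have hwpos : (0 : ℝ) < w := by linarith
  have hw3 : (w : ℝ) < 1 := by
    have := le_max_right s (e : ℝ)
    linarith
  have hwpos' : 0 < w := by exact_mod_cast hwpos
  set c0 : ℕ := w.num.toNat with hc0
  set a0 : ℕ := w.den with ha0
  have hnum : (0 : ℤ) < w.num := Rat.num_pos.2 hwpos'
  have hc0' : (c0 : ℤ) = w.num := Int.toNat_of_nonneg hnum.le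
  have ha0pos : 0 < a0 := w.den_pos
  have hc0pos : 0 < c0 := by omega
  have ha0R : (0 : ℝ) < a0 := by exact_mod_cast ha0pos
  have hw : (w : ℝ) * a0 = c0 := by
    have h1 : (w : ℚ) * a0 = c0 := by
      have h2 := Rat.mul_den_eq_num w
      have h3 : ((c0 : ℤ) : ℚ) = (w.num : ℚ) := by rw [hc0']
      rw [ha0, h2, ← h3]
      push_cast
      rfl
    exact_mod_cast h1
  have hlt : c0 < a0 := by
    have : (c0 : ℝ) < a0 := by
      rw [← hw]
      nlinarith
    exact_mod_cast this
  set M : ℝ := max s e with hM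
  have hpos2 : 0 < ((e : ℝ) + 1 - M) * a0 - c0 := by
    rw [← hw]
    nlinarith
  obtain ⟨k, hkR'⟩ := exists_nat_gt (max R (max ((e : ℝ) + 1)
    ((((e : ℝ) + 1 - M) * (e + 1)) / (((e : ℝ) + 1 - M) * a0 - c0))))
  have hk0 : R < k := lt_of_le_of_lt (le_max_left _ _) hkR'
  have hk := lt_of_le_of_lt (le_max_right _ _) hkR'
  have hk1 : (e : ℝ) + 1 < k := lt_of_le_of_lt (le_max_left _ _) hk
  have hk2 : ((e : ℝ) + 1 - M) * (e + 1) < k * (((e : ℝ) + 1 - M) * a0 - c0) := by
    have := lt_of_le_of_lt (le_max_right _ _) hk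
    rwa [div_lt_iff₀ hpos2] at this
  have hk1' : e + 1 < k := by exact_mod_cast hk1
  have hge : k * c0 + (e + 1) ≤ k * a0 := by
    have h1 : k * (c0 + 1) ≤ k * a0 := Nat.mul_le_mul_left k hlt
    have h2 : k * (c0 + 1) = k * c0 + k := by ring
    omega
  set j : ℕ := k * a0 - (k * c0 + (e + 1)) with hj
  have haa : aa (k * c0) e j = k * a0 := by
    unfold aa
    omega
  have haaR : (aa (k * c0) e j : ℝ) = k * a0 := by
    rw [haa]
    push_cast
    rfl
  have hcpos : 0 < k * c0 := Nat.mul_pos (by omega) hc0pos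
  have hkR : (0 : ℝ) < k := by
    have : 0 < k := by omega
    exact_mod_cast this
  refine ⟨k * c0, e, j, hcpos, ?_, ?_, ?_⟩
  · have h1 := al_gt (k * c0) e j hcpos
    rw [haaR] at h1
    have h2 : (1 : ℝ) ≤ a0 := by exact_mod_cast ha0pos
    nlinarith
  · -- lower bound
    have h1 := be_upper (k * c0) e j hcpos
    rw [haaR] at h1
    push_cast at h1
    have h2 : (0 : ℝ) < k * a0 - (e + 1) := by
      have := aa_gt (k * c0) e j hcpos
      rw [haaR] at this
      linarith
    have h3 : (k : ℝ) * c0 < ((e : ℝ) + 1 - M) * (k * a0 - (e + 1)) := by nlinarith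
    have h4 : ((e : ℝ) + 1 - be (k * c0) e j) * (k * a0 - (e + 1)) <
        ((e : ℝ) + 1 - M) * (k * a0 - (e + 1)) := h1.trans h3
    have h5 := lt_of_mul_lt_mul_right h4 h2.le
    have h6 := le_max_left s (e : ℝ)
    rw [← hM] at h6
    linarith
  · have h1 := be_lower (k * c0) e j hcpos
    rw [haaR] at h1
    push_cast at h1
    have h3 : ((e : ℝ) + 1 - t) * (k * a0) < k * c0 := by
      rw [← hw]
      nlinarith [mul_pos hkR ha0R]
    have h4 : ((e : ℝ) + 1 - t) * (k * a0) < ((e : ℝ) + 1 - be (k * c0) e j) * (k * a0) :=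
      h3.trans h1
    have h5 := lt_of_mul_lt_mul_right h4 (mul_pos hkR ha0R).le
    linarith

end Pool.Agent.Y211.LY
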